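import Pool.Agent.H30.FA.TC

/-!
# Row ARI: arithmetic of binomial coefficients
-/

set_option autoImplicit false

open Pool.Agent.H30.FA

namespace Pool.Agent.H1.FAS

theorem dvd_fac (n m j : ℕ) (hj : 1 ≤ j) (hjm : j < m) (hn : 1 ≤ n) :
    n ∣ m.factorial * n.choose j := by
  obtain ⟨n, rfl⟩ : ∃ n', n = n' + 1 := ⟨n - 1, by omega⟩
  obtain ⟨j, rfl⟩ : ∃ j', j = j' + 1 := ⟨j - 1, by omega⟩
  obtain ⟨q, hq⟩ := Nat.dvd_factorial (by omega : 0 < j + 1) (by omega : j + 1 ≤ m)
  have h1 := Nat.add_one_mul_choose_eq n j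
  refine ⟨q * n.choose j, ?_⟩
  rw [hq]
  calc (j + 1) * q * (n + 1).choose (j + 1) = q * ((n + 1).choose (j + 1) * (j + 1)) := by ring
    _ = q * ((n + 1) * n.choose j) := by rw [← h1]
    _ = _ := by ring

theorem pf_ARI : T_ARI := by
  intro n m b hn hb hsum
  rcases Nat.lt_or_ge m n with hmn | hmn
  · have hres : ∀ f : ℕ → ℤ, ∑ j ∈ Finset.range (n + 1), f j * b j =
        ∑ j ∈ Finset.range m, f j * b j := by
      intro f
      symm
      apply Finset.sum_subset
      · intro j hj
        rw [Finset.mem_range] at hj ⊢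
        omega
      · intro j hj hj'
        rw [Finset.mem_range] at hj hj'
        rw [hb j (by omega) (by omega), mul_zero]
    rw [hres] at hsum
    rw [hres]
    have h1 : ∑ j ∈ Finset.range m, (n.choose j : ℤ) * 2 ^ (m - j) * b j = 0 := by
      have h2 : ∑ j ∈ Finset.range m, (n.choose j : ℤ) * 2 ^ (n - j) * b j =
          2 ^ (n - m) * ∑ j ∈ Finset.range m, (n.choose j : ℤ) * 2 ^ (m - j) * b j := by
        rw [Finset.mul_sum]
        refine Finset.sum_congr rfl fun j hj => ?_
        rw [Finset.mem_range] at hj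
        have h3 : n - j = (n - m) + (m - j) := by omega
        rw [h3, pow_add]
        ring
      rw [h2] at hsum
      exact (mul_eq_zero.1 hsum).resolve_left (pow_ne_zero _ two_ne_zero)
    have h2 : (m.factorial : ℤ) * 2 ^ m * ∑ j ∈ Finset.range m, (n.choose j : ℤ) * b j =
        ∑ j ∈ Finset.range m,
          ((m.factorial * n.choose j : ℕ) : ℤ) * ((2 ^ m - 2 ^ (m - j)) * b j) := by
      have h3 : ∑ j ∈ Finset.range m,
          ((m.factorial * n.choose j : ℕ) : ℤ) * ((2 ^ m - 2 ^ (m - j)) * b j) =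
          m.factorial * 2 ^ m * (∑ j ∈ Finset.range m, (n.choose j : ℤ) * b j) -
          m.factorial * ∑ j ∈ Finset.range m, (n.choose j : ℤ) * 2 ^ (m - j) * b j := by
        rw [Finset.mul_sum, Finset.mul_sum, ← Finset.sum_sub_distrib]
        refine Finset.sum_congr rfl fun j _ => ?_
        push_cast
        ring
      rw [h3, h1, mul_zero, sub_zero]
    rw [h2]
    refine Finset.dvd_sum fun j hj => ?_
    rw [Finset.mem_range] at hj
    rcases Nat.eq_zero_or_pos j with rfl | hj0
    · simp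
    · exact Dvd.dvd.mul_right (by exact_mod_cast dvd_fac n m j hj0 hj hn) _
  · have h1 : (n : ℤ) ∣ m.factorial := by
      exact_mod_cast Nat.dvd_factorial (by omega) hmn
    exact Dvd.dvd.mul_right (Dvd.dvd.mul_right h1 _) _

end Pool.Agent.H1.FAS
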