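import Pool.Agent.H58.FM.TC2
import Pool.Agent.H30.FA.TA

/-!
# Row QU2: the mean of the squares of the overlaps, tested by the second moment
-/

set_option autoImplicit false

open Pool.Agent.H59 Pool.Agent.H48.FR Pool.Agent.H58.FL Pool.Agent.H30.FA Pool.Agent.H58.FM

namespace Pool.Agent.H1.FAS

section

variable {J B : Type} [Fintype J] [Fintype B]

open ComplexConjugate

theorem nsq (z : ℂ) : ((‖z‖ ^ 2 : ℝ) : ℂ) = z * conj z := by
  rw [Complex.mul_conj, Complex.normSq_eq_norm_sq]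

/-- two expressions for the Hilbert-Schmidt norm -/
theorem hs_norm (t : J → ℝ) (U : J → B → ℂ) :
    ∑ p, ∑ q, ‖∑ j, (t j : ℂ) * (U j p * conj (U j q))‖ ^ 2 =
      ∑ i, ∑ k, t i * t k * ‖∑ q, conj (U i q) * U k q‖ ^ 2 := by
  have h1 : ((∑ p, ∑ q, ‖∑ j, (t j : ℂ) * (U j p * conj (U j q))‖ ^ 2 : ℝ) : ℂ) =
      ((∑ i, ∑ k, t i * t k * ‖∑ q, conj (U i q) * U k q‖ ^ 2 : ℝ) : ℂ) := by
    have e1 : ∀ p q, ((‖∑ j, (t j : ℂ) * (U j p * conj (U j q))‖ ^ 2 : ℝ) : ℂ) =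
        ∑ i, ∑ k, (t i : ℂ) * t k * ((U i p * conj (U k p)) * (conj (U i q) * U k q)) := by
      intro p q
      rw [nsq, map_sum, Finset.sum_mul_sum]
      refine Finset.sum_congr rfl fun i _ => Finset.sum_congr rfl fun k _ => ?_
      rw [map_mul, map_mul, Complex.conj_ofReal, Complex.conj_conj]
      ring
    have e2 : ∀ i k, ((t i * t k * ‖∑ q, conj (U i q) * U k q‖ ^ 2 : ℝ) : ℂ) =
        ∑ p, ∑ q, (t i : ℂ) * t k * ((U i p * conj (U k p)) * (conj (U i q) * U k q)) := by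
      intro i k
      rw [Complex.ofReal_mul, Complex.ofReal_mul, nsq, map_sum, mul_comm (∑ q, _) (∑ q, _),
        Finset.sum_mul_sum, Finset.mul_sum]
      refine Finset.sum_congr rfl fun p _ => ?_
      rw [Finset.mul_sum]
      refine Finset.sum_congr rfl fun q _ => ?_
      rw [map_mul, Complex.conj_conj]
    rw [Complex.ofReal_sum, Complex.ofReal_sum]
    simp only [Complex.ofReal_sum, e1, e2]
    calc ∑ p, ∑ q, ∑ i, ∑ k, (t i : ℂ) * t k *
          ((U i p * conj (U k p)) * (conj (U i q) * U k q))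
        = ∑ p, ∑ i, ∑ q, ∑ k, (t i : ℂ) * t k *
          ((U i p * conj (U k p)) * (conj (U i q) * U k q)) :=
          Finset.sum_congr rfl fun p _ => Finset.sum_comm
      _ = ∑ i, ∑ p, ∑ q, ∑ k, (t i : ℂ) * t k *
          ((U i p * conj (U k p)) * (conj (U i q) * U k q)) := Finset.sum_comm
      _ = ∑ i, ∑ p, ∑ k, ∑ q, (t i : ℂ) * t k *
          ((U i p * conj (U k p)) * (conj (U i q) * U k q)) :=
          Finset.sum_congr rfl fun i _ => Finset.sum_congr rfl fun p _ => Finset.sum_comm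
      _ = _ := Finset.sum_congr rfl fun i _ => Finset.sum_comm
  exact_mod_cast h1

end

section

variable {J A : Type} [Fintype J] [Fintype A] [DecidableEq A]

open ComplexConjugate

/-- the diagonal entries -/
noncomputable def DD (t : J → ℝ) (X : J → A → ℂ) (p : A × A) : ℝ :=
  ∑ j, t j * (‖X j p.1‖ ^ 2 * ‖X j p.2‖ ^ 2)

/-- the weights -/
def ww (p : A × A) : ℝ := if p.1 = p.2 then 1 else 2

theorem diag_le (t : J → ℝ) (X : J → A → ℂ) :
    ∑ p : A × A, ww p * DD t X p ^ 2 ≤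
      ∑ i, ∑ k, t i * t k * ‖∑ a, conj (X i a) * X k a‖ ^ (2 * 2) := by
  have h1 := hs_norm t (fun j (p : A × A) => X j p.1 * X j p.2)
  have h2 : ∀ i k, ‖∑ q : A × A, conj (X i q.1 * X i q.2) * (X k q.1 * X k q.2)‖ ^ 2 =
      ‖∑ a, conj (X i a) * X k a‖ ^ (2 * 2) := by
    intro i k
    have h3 : ∑ q : A × A, conj (X i q.1 * X i q.2) * (X k q.1 * X k q.2) =
        (∑ a, conj (X i a) * X k a) * ∑ a, conj (X i a) * X k a := by
      rw [Fintype.sum_prod_type, Finset.sum_mul_sum]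
      refine Finset.sum_congr rfl fun a _ => Finset.sum_congr rfl fun b _ => ?_
      rw [map_mul]
      ring
    rw [h3, norm_mul]
    ring
  simp only [h2] at h1
  rw [← h1]
  refine Finset.sum_le_sum fun p _ => ?_
  have h4 : (DD t X p : ℂ) = ∑ j, (t j : ℂ) * (X j p.1 * X j p.2 * conj (X j p.1 * X j p.2)) := by
    unfold DD
    rw [Complex.ofReal_sum]
    refine Finset.sum_congr rfl fun j _ => ?_
    rw [Complex.ofReal_mul, Complex.ofReal_mul, nsq, nsq, map_mul]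
    ring
  have h5 : (DD t X p : ℂ) = ∑ j, (t j : ℂ) *
      (X j p.1 * X j p.2 * conj (X j p.swap.1 * X j p.swap.2)) := by
    rw [h4]
    refine Finset.sum_congr rfl fun j _ => ?_
    rw [Prod.fst_swap, Prod.snd_swap, mul_comm (X j p.2) (X j p.1)]
  have h6 : ‖∑ j, (t j : ℂ) * (X j p.1 * X j p.2 * conj (X j p.1 * X j p.2))‖ ^ 2 =
      DD t X p ^ 2 := by
    rw [← h4, Complex.norm_real, Real.norm_eq_abs, sq_abs]
  have h7 : ‖∑ j, (t j : ℂ) * (X j p.1 * X j p.2 * conj (X j p.swap.1 * X j p.swap.2))‖ ^ 2 =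
      DD t X p ^ 2 := by
    rw [← h5, Complex.norm_real, Real.norm_eq_abs, sq_abs]
  by_cases hp : p.1 = p.2
  · unfold ww
    rw [if_pos hp, one_mul, ← h6]
    exact Finset.single_le_sum (f := fun q : A × A =>
      ‖∑ j, (t j : ℂ) * (X j p.1 * X j p.2 * conj (X j q.1 * X j q.2))‖ ^ 2)
      (fun q _ => sq_nonneg _) (Finset.mem_univ p)
  · unfold ww
    rw [if_neg hp]
    have hne : p ≠ p.swap := fun h => hp (congrArg Prod.fst h)
    have h8 : ∑ q ∈ ({p, p.swap} : Finset (A × A)),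
        ‖∑ j, (t j : ℂ) * (X j p.1 * X j p.2 * conj (X j q.1 * X j q.2))‖ ^ 2 =
        2 * DD t X p ^ 2 := by
      rw [Finset.sum_pair hne, h6, h7]
      ring
    rw [← h8]
    exact Finset.sum_le_sum_of_subset_of_nonneg (Finset.subset_univ _) fun q _ _ => sq_nonneg _

theorem main_ineq (t : J → ℝ) (ht : ∀ j, 0 ≤ t j) (hts : ∑ j, t j = 1) (X : J → A → ℂ)
    (r : A → ℝ) (hr : ∀ a, r a = ∑ j, t j * ‖X j a‖ ^ 2) :
    2 * (∑ a, r a ^ 2) ^ 4 ≤ ((∑ a, r a ^ 2) ^ 2 + ∑ a, r a ^ 4) *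
      ∑ i, ∑ k, t i * t k * ‖∑ a, conj (X i a) * X k a‖ ^ (2 * 2) := by
  obtain ⟨Q, hQ⟩ : ∃ Q, Q = ∑ i, ∑ k, t i * t k * ‖∑ a, conj (X i a) * X k a‖ ^ (2 * 2) :=
    ⟨_, rfl⟩
  obtain ⟨s, hs⟩ : ∃ s, s = ∑ a, r a ^ 2 := ⟨_, rfl⟩
  have h1 := diag_le t X
  rw [← hQ] at h1 ⊢
  rw [← hs]
  have hw : ∀ p : A × A, 0 < ww p := by
    intro p
    unfold ww
    split_ifs <;> norm_num
  -- Cauchy-Schwarz
  have h2 : (∑ p : A × A, r p.1 * r p.2 * DD t X p) ^ 2 ≤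
      (∑ p : A × A, ww p * DD t X p ^ 2) * ∑ p : A × A, (r p.1 * r p.2) ^ 2 / ww p := by
    apply Finset.sum_sq_le_sum_mul_sum_of_sq_le_mul
    · exact fun p _ => mul_nonneg (hw p).le (sq_nonneg _)
    · exact fun p _ => div_nonneg (sq_nonneg _) (hw p).le
    · intro p _
      apply le_of_eq
      have := (hw p).ne'
      field_simp
  have h3 : ∑ p : A × A, (r p.1 * r p.2) ^ 2 / ww p = (s ^ 2 + ∑ a, r a ^ 4) / 2 := by
    have h4 : ∀ p : A × A, (r p.1 * r p.2) ^ 2 / ww p =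
        (r p.1 ^ 2 * r p.2 ^ 2 + if p.1 = p.2 then r p.1 ^ 4 else 0) / 2 := by
      intro p
      unfold ww
      split_ifs with h
      · rw [← h]
        ring
      · ring
    have h5 : ∑ p : A × A, r p.1 ^ 2 * r p.2 ^ 2 = s ^ 2 := by
      rw [Fintype.sum_prod_type, hs, sq (∑ a, r a ^ 2), Finset.sum_mul_sum]
    have h6 : ∑ p : A × A, (if p.1 = p.2 then r p.1 ^ 4 else 0) = ∑ a, r a ^ 4 := by
      rw [Fintype.sum_prod_type]
      refine Finset.sum_congr rfl fun a _ => ?_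
      simp
    rw [Finset.sum_congr rfl fun p _ => h4 p, ← Finset.sum_div, Finset.sum_add_distrib, h5, h6]
  have h5 : ∑ p : A × A, r p.1 * r p.2 * DD t X p = ∑ j, t j * (∑ a, r a * ‖X j a‖ ^ 2) ^ 2 := by
    have h6 : ∀ p : A × A, r p.1 * r p.2 * DD t X p =
        ∑ j, t j * ((r p.1 * ‖X j p.1‖ ^ 2) * (r p.2 * ‖X j p.2‖ ^ 2)) := by
      intro p
      unfold DD
      rw [Finset.mul_sum]
      refine Finset.sum_congr rfl fun j _ => ?_
      ring
    rw [Finset.sum_congr rfl fun p _ => h6 p, Finset.sum_comm]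
    refine Finset.sum_congr rfl fun j _ => ?_
    rw [← Finset.mul_sum, Fintype.sum_prod_type, sq (∑ a, r a * ‖X j a‖ ^ 2),
      Finset.sum_mul_sum]
  have h7 : ∑ j, t j * (∑ a, r a * ‖X j a‖ ^ 2) = s := by
    rw [hs]
    have h8 : ∀ j, t j * (∑ a, r a * ‖X j a‖ ^ 2) = ∑ a, r a * (t j * ‖X j a‖ ^ 2) := by
      intro j
      rw [Finset.mul_sum]
      refine Finset.sum_congr rfl fun a _ => ?_
      ring
    rw [Finset.sum_congr rfl fun j _ => h8 j, Finset.sum_comm]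
    refine Finset.sum_congr rfl fun a _ => ?_
    rw [← Finset.mul_sum, ← hr, sq]
  have h9 : s ^ 2 ≤ ∑ p : A × A, r p.1 * r p.2 * DD t X p := by
    rw [h5]
    have h10 : 0 ≤ ∑ j, t j * ((∑ a, r a * ‖X j a‖ ^ 2) - s) ^ 2 :=
      Finset.sum_nonneg fun j _ => mul_nonneg (ht j) (sq_nonneg _)
    have h11 : ∑ j, t j * ((∑ a, r a * ‖X j a‖ ^ 2) - s) ^ 2 =
        ∑ j, t j * (∑ a, r a * ‖X j a‖ ^ 2) ^ 2 -
        2 * s * (∑ j, t j * (∑ a, r a * ‖X j a‖ ^ 2)) + s ^ 2 * ∑ j, t j := by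
      rw [Finset.mul_sum, Finset.mul_sum, ← Finset.sum_sub_distrib, ← Finset.sum_add_distrib]
      refine Finset.sum_congr rfl fun j _ => ?_
      ring
    rw [h11, h7, hts] at h10
    nlinarith
  have h12 : (s ^ 2) ^ 2 ≤ (∑ p : A × A, r p.1 * r p.2 * DD t X p) ^ 2 :=
    pow_le_pow_left₀ (sq_nonneg s) h9 2
  have h13 : 0 ≤ (s ^ 2 + ∑ a, r a ^ 4) / 2 := by
    have : 0 ≤ ∑ a, r a ^ 4 := Finset.sum_nonneg fun a _ => by positivity
    positivity
  rw [h3] at h2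
  have h14 : (∑ p : A × A, ww p * DD t X p ^ 2) * ((s ^ 2 + ∑ a, r a ^ 4) / 2) ≤
      Q * ((s ^ 2 + ∑ a, r a ^ 4) / 2) := mul_le_mul_of_nonneg_right h1 h13
  nlinarith

end

theorem pf_QU2 (hBAS : T_BAS) : T_QU2 := by
  classical
  intro κ J E _ _ _ d C
  have h1 := (hBAS κ J E d C).1
  have h2 := main_ineq C.t C.t_nonneg C.t_sum (fun j a => inner ℂ (C.e a) (C.x j)) C.r h1
  have h3 : qq C.t C.x 2 1 = ∑ i, ∑ k, C.t i * C.t k *
      ‖∑ a, (starRingEnd ℂ) (inner ℂ (C.e a) (C.x i)) * inner ℂ (C.e a) (C.x k)‖ ^ (2 * 2) := by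
    unfold qq
    refine Finset.sum_congr rfl fun i _ => Finset.sum_congr rfl fun k _ => ?_
    congr 3
    have h4 := C.e.sum_inner_mul_inner (C.x i) (C.x k)
    show inner ℂ (C.x i) (C.x k) = _
    rw [← h4]
    refine Finset.sum_congr rfl fun a _ => ?_
    rw [inner_conj_symm]
  rw [h3]
  exact h2

end Pool.Agent.H1.FAS
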